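import Pool.Agent.Y453.UF.Stm

set_option autoImplicit false

/-!
# Direct sums
-/

namespace Pool.Agent.Y953.UF

open Finset Pool.Agent.Y453.UF

section S4

variable {K : Type} [Fintype K]

/-- four-fold sums -/
def S4 (F : K → K → K → K → ℤ) : ℤ := ∑ i, ∑ j, ∑ k, ∑ l, F i j k l

theorem S4_12 (F : K → K → K → K → ℤ) : S4 F = S4 (fun i j k l => F j i k l) :=
  Finset.sum_comm

theorem S4_34 (F : K → K → K → K → ℤ) : S4 F = S4 (fun i j k l => F i j l k) :=
  Finset.sum_congr rfl fun _ _ => Finset.sum_congr rfl fun _ _ => Finset.sum_comm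

theorem S4_prod (F : K → K → K → K → ℤ) :
    S4 F = ∑ x : K × K, ∑ y : K × K, F x.1 x.2 y.1 y.2 := by
  simp only [S4, Fintype.sum_prod_type]

theorem S4_pp (F : K → K → K → K → ℤ) : S4 F = S4 (fun i j k l => F k l i j) := by
  rw [S4_prod, S4_prod, Finset.sum_comm]

theorem S4_congr {F G : K → K → K → K → ℤ} (h : ∀ i j k l, F i j k l = G i j k l) :
    S4 F = S4 G := by
  have : F = G := by funext i j k l; exact h i j k l
  rw [this]

theorem S4_add (F G : K → K → K → K → ℤ) :
    S4 (fun i j k l => F i j k l + G i j k l) = S4 F + S4 G := by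
  simp only [S4, Finset.sum_add_distrib]

theorem S4_neg (F : K → K → K → K → ℤ) : S4 (fun i j k l => - F i j k l) = - S4 F := by
  simp only [S4, Finset.sum_neg_distrib]

theorem S4_mul (f g : K → K → ℤ) :
    S4 (fun i j k l => f i j * g k l) = (∑ i, ∑ j, f i j) * (∑ i, ∑ j, g i j) := by
  have h1 : ∀ i j, ∑ k, ∑ l, f i j * g k l = f i j * ∑ k, ∑ l, g k l := by
    intro i j
    simp only [Finset.mul_sum]
  simp only [S4, h1, ← Finset.sum_mul]

theorem Phi_S4 (w : K → K → K → K → ℤ) (M N : K → K → ℤ) :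
    Phi w M N = S4 (fun i j k l => w i j k l * M i j * N k l) := rfl

/-- the wedge product of two two-forms -/
def wedge (a b : K → K → ℤ) : K → K → K → K → ℤ := fun i j k l =>
  a i j * b k l - a i k * b j l + a i l * b j k + a j k * b i l - a j l * b i k + a k l * b i j

omit [Fintype K] in
theorem wedge_alt {a b : K → K → ℤ} (ha : ∀ i j, a j i = - a i j) (hb : ∀ i j, b j i = - b i j) :
    IsAlt4 (wedge a b) := by
  refine ⟨fun i j k l => ?_, fun i j k l => ?_, fun i j k l => ?_⟩
  · unfold wedge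
    rw [ha i j, hb i j]
    ring
  · unfold wedge
    rw [ha j k, hb j k]
    ring
  · unfold wedge
    rw [ha k l, hb k l]
    ring

theorem Phi_wedge (a b M N : K → K → ℤ) (hM : ∀ i j, M j i = - M i j)
    (hN : ∀ i j, N j i = - N i j) :
    Phi (wedge a b) M N = pair a M * pair b N + pair a N * pair b M -
      4 * S4 (fun i j k l => a i k * b j l * M i j * N k l) := by
  have e : ∀ i j k l, wedge a b i j k l * M i j * N k l =
      (a i j * M i j) * (b k l * N k l) + ((b i j * M i j) * (a k l * N k l) +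
      ((- (a i k * b j l * M i j * N k l)) + (a i l * b j k * M i j * N k l +
      (a j k * b i l * M i j * N k l + (- (a j l * b i k * M i j * N k l)))))) := by
    intro i j k l
    unfold wedge
    ring
  have e3 : S4 (fun i j k l => a i l * b j k * M i j * N k l) =
      - S4 (fun i j k l => a i k * b j l * M i j * N k l) := by
    rw [S4_34, ← S4_neg]
    refine S4_congr fun i j k l => ?_
    rw [hN k l]
    ring
  have e4 : S4 (fun i j k l => a j k * b i l * M i j * N k l) =
      - S4 (fun i j k l => a i k * b j l * M i j * N k l) := by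
    rw [S4_12, ← S4_neg]
    refine S4_congr fun i j k l => ?_
    rw [hM i j]
    ring
  have e5 : S4 (fun i j k l => a j l * b i k * M i j * N k l) =
      S4 (fun i j k l => a i k * b j l * M i j * N k l) := by
    rw [S4_12, S4_34]
    refine S4_congr fun i j k l => ?_
    rw [hM i j, hN k l]
    ring
  rw [Phi_S4, S4_congr e, S4_add, S4_mul, S4_add, S4_mul, S4_add, S4_neg, S4_add, e3, S4_add, e4,
    S4_neg, e5]
  unfold pair
  ring

theorem Phi_comm {w : K → K → K → K → ℤ} (hw : IsAlt4 w) (M N : K → K → ℤ) :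
    Phi w M N = Phi w N M := by
  rw [Phi_S4, Phi_S4, S4_pp]
  refine S4_congr fun i j k l => ?_
  have h : w k l i j = w i j k l := by
    rw [hw.2.1 k i l j, hw.1 i k l j, hw.2.2 i k j l, hw.2.1 i j k l]
    ring
  rw [h]
  ring

theorem Phi_add_w (w w' : K → K → K → K → ℤ) (M N : K → K → ℤ) :
    Phi (fun i j k l => w i j k l + w' i j k l) M N = Phi w M N + Phi w' M N := by
  rw [Phi_S4, Phi_S4, Phi_S4, ← S4_add]
  exact S4_congr fun i j k l => by ring

theorem Phi_sum_w {ι : Type} (s : Finset ι) (w : ι → K → K → K → K → ℤ) (M N : K → K → ℤ) :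
    Phi (fun i j k l => ∑ t ∈ s, w t i j k l) M N = ∑ t ∈ s, Phi (w t) M N := by
  classical
  induction s using Finset.induction_on with
  | empty => simp [Phi]
  | insert t s ht ih =>
    rw [Finset.sum_insert ht, ← ih, ← Phi_add_w]
    simp only [Finset.sum_insert ht]

/-- `Phi w · N` as a homomorphism -/
def PhiL (w : K → K → K → K → ℤ) (N : K → K → ℤ) : AltM K →+ ℤ :=
  AddMonoidHom.mk' (fun M => Phi w (M : K → K → ℤ) N) fun M M' => by
    show Phi w ((M : K → K → ℤ) + (M' : K → K → ℤ)) N = _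
    rw [Phi_S4, Phi_S4, Phi_S4, ← S4_add]
    exact S4_congr fun i j k l => by simp only [Pi.add_apply]; ring

/-- the shear of `Phi` -/
theorem Phi_shear {w : K → K → K → K → ℤ} (hw : IsAlt4 w) {r : ℕ} (a u : Fin r → AltM K)
    (hu : ∀ (i : Fin r) (N : AltM K), Phi w (u i : K → K → ℤ) (N : K → K → ℤ) =
      2 * pair (a i : K → K → ℤ) (N : K → K → ℤ))
    (hau : ∀ i j : Fin r, pair (a i : K → K → ℤ) (u j : K → K → ℤ) = 0)
    (M N : AltM K) (m n : Fin r → ℤ) :
    Phi w ((M + ∑ i, m i • u i : AltM K) : K → K → ℤ) ((N + ∑ i, n i • u i : AltM K) : K → K → ℤ) =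
      Phi w (M : K → K → ℤ) (N : K → K → ℤ) + ∑ i, (2 * m i) * pair (a i : K → K → ℤ) N +
        ∑ i, (2 * n i) * pair (a i : K → K → ℤ) M := by
  have h1 : ∀ (A B : AltM K) (c : Fin r → ℤ), Phi w ((A + ∑ i, c i • u i : AltM K) : K → K → ℤ) B =
      Phi w (A : K → K → ℤ) B + ∑ i, (2 * c i) * pair (a i : K → K → ℤ) B := by
    intro A B c
    have h2 : PhiL w B (A + ∑ i, c i • u i) = PhiL w B A + ∑ i, c i • PhiL w B (u i) := by
      rw [map_add, map_sum]
      simp only [map_zsmul]
    have h3 : ∀ i, c i • PhiL w B (u i) = (2 * c i) * pair (a i : K → K → ℤ) B := by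
      intro i
      have h4 : PhiL w B (u i) = 2 * pair (a i : K → K → ℤ) B := hu i B
      rw [h4, smul_eq_mul]
      ring
    rw [Finset.sum_congr rfl fun i _ => h3 i] at h2
    exact h2
  rw [h1, Phi_comm hw, h1, Phi_comm hw]
  have h5 : ∀ i, pair (a i : K → K → ℤ) ((N + ∑ i, n i • u i : AltM K) : K → K → ℤ) =
      pair (a i : K → K → ℤ) N := by
    intro i
    have h6 := hu i (N + ∑ i, n i • u i)
    rw [Phi_comm hw, h1, Phi_comm hw, hu i N] at h6
    simp only [hau, mul_zero, Finset.sum_const_zero, add_zero] at h6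
    linarith
  simp only [h5]
  ring

end S4

section blocks

variable {I J : Type} [Fintype I] [Fintype J]

/-- extension by zero -/
def exA (a : I → I → ℤ) : I ⊕ J → I ⊕ J → ℤ :=
  Sum.elim (fun p => Sum.elim (fun q => a p q) (fun _ => 0)) (fun _ => Sum.elim (fun _ => 0) (fun _ => 0))

/-- extension by zero -/
def exB (b : J → J → ℤ) : I ⊕ J → I ⊕ J → ℤ :=
  Sum.elim (fun _ => Sum.elim (fun _ => 0) (fun _ => 0)) (fun p => Sum.elim (fun _ => 0) (fun q => b p q))

/-- extension by zero -/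
def ex4A (w : I → I → I → I → ℤ) (i j k l : I ⊕ J) : ℤ :=
  match i, j, k, l with
  | Sum.inl p, Sum.inl q, Sum.inl r, Sum.inl s => w p q r s
  | _, _, _, _ => 0

/-- extension by zero -/
def ex4B (w : J → J → J → J → ℤ) (i j k l : I ⊕ J) : ℤ :=
  match i, j, k, l with
  | Sum.inr p, Sum.inr q, Sum.inr r, Sum.inr s => w p q r s
  | _, _, _, _ => 0

omit [Fintype I] [Fintype J] in
theorem exA_skew {a : I → I → ℤ} (ha : ∀ i j, a j i = - a i j) (x y : I ⊕ J) :
    exA (J := J) a y x = - exA a x y := by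
  rcases x with x | x <;> rcases y with y | y
  · exact ha x y
  · simp [exA]
  · simp [exA]
  · simp [exA]

omit [Fintype I] [Fintype J] in
theorem exB_skew {b : J → J → ℤ} (hb : ∀ i j, b j i = - b i j) (x y : I ⊕ J) :
    exB (I := I) b y x = - exB b x y := by
  rcases x with x | x <;> rcases y with y | y
  · simp [exB]
  · simp [exB]
  · simp [exB]
  · exact hb x y

omit [Fintype I] [Fintype J] in
theorem ex4A_alt {w : I → I → I → I → ℤ} (hw : IsAlt4 w) : IsAlt4 (ex4A (J := J) w) := by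
  refine ⟨?_, ?_, ?_⟩
  · rintro (i | i) (j | j) (k | k) (l | l) <;> simp only [ex4A, neg_zero]
    exact hw.1 i j k l
  · rintro (i | i) (j | j) (k | k) (l | l) <;> simp only [ex4A, neg_zero]
    exact hw.2.1 i j k l
  · rintro (i | i) (j | j) (k | k) (l | l) <;> simp only [ex4A, neg_zero]
    exact hw.2.2 i j k l

omit [Fintype I] [Fintype J] in
theorem ex4B_alt {w : J → J → J → J → ℤ} (hw : IsAlt4 w) : IsAlt4 (ex4B (I := I) w) := by
  refine ⟨?_, ?_, ?_⟩
  · rintro (i | i) (j | j) (k | k) (l | l) <;> simp only [ex4B, neg_zero]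
    exact hw.1 i j k l
  · rintro (i | i) (j | j) (k | k) (l | l) <;> simp only [ex4B, neg_zero]
    exact hw.2.1 i j k l
  · rintro (i | i) (j | j) (k | k) (l | l) <;> simp only [ex4B, neg_zero]
    exact hw.2.2 i j k l

theorem Phi_ex4A (w : I → I → I → I → ℤ) (M N : I ⊕ J → I ⊕ J → ℤ) :
    Phi (ex4A w) M N = Phi w (fun p q => M (Sum.inl p) (Sum.inl q))
      (fun p q => N (Sum.inl p) (Sum.inl q)) := by
  simp only [Phi, Fintype.sum_sum_type, ex4A, zero_mul, Finset.sum_const_zero, add_zero]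

theorem Phi_ex4B (w : J → J → J → J → ℤ) (M N : I ⊕ J → I ⊕ J → ℤ) :
    Phi (ex4B w) M N = Phi w (fun p q => M (Sum.inr p) (Sum.inr q))
      (fun p q => N (Sum.inr p) (Sum.inr q)) := by
  simp only [Phi, Fintype.sum_sum_type, ex4B, zero_mul, Finset.sum_const_zero, zero_add]

theorem pair_exA (a : I → I → ℤ) (M : I ⊕ J → I ⊕ J → ℤ) :
    pair (exA a) M = pair a (fun p q => M (Sum.inl p) (Sum.inl q)) := by
  simp only [pair, Fintype.sum_sum_type, exA, Sum.elim_inl, Sum.elim_inr, zero_mul,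
    Finset.sum_const_zero, add_zero]

theorem pair_exB (b : J → J → ℤ) (M : I ⊕ J → I ⊕ J → ℤ) :
    pair (exB b) M = pair b (fun p q => M (Sum.inr p) (Sum.inr q)) := by
  simp only [pair, Fintype.sum_sum_type, exB, Sum.elim_inl, Sum.elim_inr, zero_mul,
    Finset.sum_const_zero, zero_add]

theorem S4_ex (a : I → I → ℤ) (b : J → J → ℤ) (M N : I ⊕ J → I ⊕ J → ℤ) :
    S4 (fun i j k l => exA a i k * exB b j l * M i j * N k l) =
      ∑ p, ∑ q, ∑ p', ∑ q', a p p' * b q q' * M (Sum.inl p) (Sum.inr q) *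
        N (Sum.inl p') (Sum.inr q') := by
  simp only [S4, Fintype.sum_sum_type, exA, exB, Sum.elim_inl, Sum.elim_inr, zero_mul, mul_zero,
    Finset.sum_const_zero, zero_add, add_zero]

/-- the blocks of a skew-symmetric matrix -/
def blk : AltM (I ⊕ J) ≃+ AltM I × AltM J × (I → J → ℤ) where
  toFun M := (⟨fun p q => (M : I ⊕ J → I ⊕ J → ℤ) (Sum.inl p) (Sum.inl q),
      fun p q => M.2 (Sum.inl p) (Sum.inl q)⟩,
    ⟨fun p q => (M : I ⊕ J → I ⊕ J → ℤ) (Sum.inr p) (Sum.inr q),
      fun p q => M.2 (Sum.inr p) (Sum.inr q)⟩,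
    fun p q => (M : I ⊕ J → I ⊕ J → ℤ) (Sum.inl p) (Sum.inr q))
  invFun x := ⟨Sum.elim (fun p => Sum.elim (fun q => (x.1 : I → I → ℤ) p q) (fun q => x.2.2 p q))
      (fun p => Sum.elim (fun q => - x.2.2 q p) (fun q => (x.2.1 : J → J → ℤ) p q)), by
    rintro (p | p) (q | q)
    · exact x.1.2 p q
    · rfl
    · show x.2.2 q p = - (- x.2.2 q p)
      ring
    · exact x.2.1.2 p q⟩
  left_inv M := by
    apply Subtype.ext
    funext p q
    rcases p with p | p <;> rcases q with q | q
    · rfl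
    · rfl
    · exact (M.2 (Sum.inl q) (Sum.inr p)).symm
    · rfl
  right_inv x := rfl
  map_add' M N := rfl

/-- half of the pairing -/
def hp [LinearOrder J] (b : J → J → ℤ) (M : J → J → ℤ) : ℤ :=
  ∑ p, ∑ q, if p < q then b p q * M p q else 0

theorem hp_two [LinearOrder J] {b M : J → J → ℤ} (hb : ∀ i j, b j i = - b i j)
    (hM : ∀ i j, M j i = - M i j) : 2 * hp b M = pair b M := by
  have h1 : hp b M = ∑ p, ∑ q, if q < p then b p q * M p q else 0 := by
    unfold hp
    rw [Finset.sum_comm]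
    refine Finset.sum_congr rfl fun p _ => Finset.sum_congr rfl fun q _ => ?_
    rw [hb p q, hM p q]
    split_ifs <;> ring
  have h2 : pair b M = hp b M + ∑ p, ∑ q, if q < p then b p q * M p q else 0 := by
    unfold hp pair
    rw [← Finset.sum_add_distrib]
    refine Finset.sum_congr rfl fun p _ => ?_
    rw [← Finset.sum_add_distrib]
    refine Finset.sum_congr rfl fun q _ => ?_
    rcases lt_trichotomy p q with h | h | h
    · rw [if_pos h, if_neg (not_lt_of_gt h), add_zero]
    · subst h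
      have h3 := hb p p
      have h4 : b p p = 0 := by linarith
      rw [h4]
      simp
    · rw [if_pos h, if_neg (not_lt_of_gt h), zero_add]
  rw [h2, ← h1]
  ring

/-- the correction term -/
def cor [LinearOrder J] {r : ℕ} (b : Fin r → AltM J) (u : Fin r → AltM I) : AltM J →+ AltM I :=
  AddMonoidHom.mk' (fun B => ∑ i, hp (b i : J → J → ℤ) (B : J → J → ℤ) • u i) fun B B' => by
    rw [← Finset.sum_add_distrib]
    refine Finset.sum_congr rfl fun i _ => ?_
    rw [← add_smul]
    congr 1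
    show hp (b i : J → J → ℤ) ((B : J → J → ℤ) + (B' : J → J → ℤ)) = _
    unfold hp
    rw [← Finset.sum_add_distrib]
    refine Finset.sum_congr rfl fun p _ => ?_
    rw [← Finset.sum_add_distrib]
    refine Finset.sum_congr rfl fun q _ => ?_
    simp only [Pi.add_apply]
    split_ifs <;> ring

/-- the shear -/
def shear {A B C : Type} [AddCommGroup A] [AddCommGroup B] [AddCommGroup C] (f : B →+ A) :
    A × B × C ≃+ A × B × C where
  toFun x := (x.1 + f x.2.1, x.2.1, x.2.2)
  invFun x := (x.1 - f x.2.1, x.2.1, x.2.2)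
  left_inv x := by simp
  right_inv x := by simp
  map_add' x y := by
    refine Prod.ext ?_ rfl
    show x.1 + y.1 + f (x.2.1 + y.2.1) = x.1 + f x.2.1 + (y.1 + f y.2.1)
    rw [map_add]
    abel

end blocks

/-- STEP. -/
theorem step : S_STEP := by
  intro I J _ _ _ _ wA wB hA hB r a b u hu hau
  have hsk : ∀ i, IsAlt4 (wedge (exA (J := J) (a i : I → I → ℤ)) (exB (I := I) (b i : J → J → ℤ))) :=
    fun i => wedge_alt (exA_skew (a i).2) (exB_skew (b i).2)
  refine ⟨fun x y z t => ex4A wA x y z t + (ex4B wB x y z t +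
    ∑ i, wedge (exA (a i : I → I → ℤ)) (exB (b i : J → J → ℤ)) x y z t), ?_,
    blk.trans (shear (cor b u)), ?_⟩
  · have h1 := ex4A_alt (J := J) hA
    have h2 := ex4B_alt (I := I) hB
    refine ⟨fun i j k l => ?_, fun i j k l => ?_, fun i j k l => ?_⟩
    · show ex4A wA j i k l + (ex4B wB j i k l + ∑ t, _) = _
      rw [h1.1, h2.1, Finset.sum_congr rfl fun t _ => (hsk t).1 i j k l, Finset.sum_neg_distrib]
      ring
    · show ex4A wA i k j l + (ex4B wB i k j l + ∑ t, _) = _
      rw [h1.2.1, h2.2.1, Finset.sum_congr rfl fun t _ => (hsk t).2.1 i j k l,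
        Finset.sum_neg_distrib]
      ring
    · show ex4A wA i j l k + (ex4B wB i j l k + ∑ t, _) = _
      rw [h1.2.2, h2.2.2, Finset.sum_congr rfl fun t _ => (hsk t).2.2 i j k l,
        Finset.sum_neg_distrib]
      ring
  · intro M N
    rw [Phi_add_w, Phi_add_w, Phi_sum_w, Phi_ex4A, Phi_ex4B]
    have h3 : ∀ i, Phi (wedge (exA (a i : I → I → ℤ)) (exB (b i : J → J → ℤ))) M N =
        (2 * hp (b i : J → J → ℤ) (blk N).2.1) * pair (a i : I → I → ℤ) (blk M).1 +
        (2 * hp (b i : J → J → ℤ) (blk M).2.1) * pair (a i : I → I → ℤ) (blk N).1 -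
        4 * ∑ p, ∑ q, ∑ p', ∑ q', (a i : I → I → ℤ) p p' * (b i : J → J → ℤ) q q' *
          (blk M).2.2 p q * (blk N).2.2 p' q' := by
      intro i
      rw [Phi_wedge _ _ _ _ M.2 N.2, pair_exA, pair_exB, pair_exA, pair_exB, S4_ex,
        hp_two (b i).2 (blk N).2.1.2, hp_two (b i).2 (blk M).2.1.2]
      show pair (a i : I → I → ℤ) (blk M).1 * pair (b i : J → J → ℤ) (blk N).2.1 +
        pair (a i : I → I → ℤ) (blk N).1 * pair (b i : J → J → ℤ) (blk M).2.1 - _ = _
      have h4 : ∀ x y z t : ℤ, x * y + z * t = y * x + t * z := fun x y z t => by ring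
      rw [h4]
      rfl
    rw [Finset.sum_congr rfl fun i _ => h3 i]
    have h5 := Phi_shear hA a u hu hau (blk M).1 (blk N).1
      (fun i => hp (b i : J → J → ℤ) (blk M).2.1) (fun i => hp (b i : J → J → ℤ) (blk N).2.1)
    have h6 : Phi wA ((blk.trans (shear (cor b u))) M).1 ((blk.trans (shear (cor b u))) N).1 =
      Phi wA (((blk M).1 + ∑ i, hp (b i : J → J → ℤ) (blk M).2.1 • u i : AltM I) : I → I → ℤ)
        (((blk N).1 + ∑ i, hp (b i : J → J → ℤ) (blk N).2.1 • u i : AltM I) : I → I → ℤ) := rfl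
    rw [h6, h5, Finset.sum_sub_distrib, Finset.sum_add_distrib, ← Finset.mul_sum]
    show Phi wA ((blk M).1 : I → I → ℤ) ((blk N).1 : I → I → ℤ) +
      (Phi wB ((blk M).2.1 : J → J → ℤ) ((blk N).2.1 : J → J → ℤ) + _) = _ +
      Phi wB ((blk M).2.1 : J → J → ℤ) ((blk N).2.1 : J → J → ℤ) - 4 * ∑ i, ∑ p, ∑ q, ∑ p', ∑ q',
            (a i : I → I → ℤ) p p' * (b i : J → J → ℤ) q q' * (blk M).2.2 p q * (blk N).2.2 p' q'
    ring

end Pool.Agent.Y953.UF
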